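import Mathlib

/-!
# Signed sums of distinct characters of an elementary abelian 2-group
-/

set_option autoImplicit false

namespace Pool.Agent.Helper114.Width

/-- the sign of a residue modulo 2 -/
def chi (a : ZMod 2) : ℝ := if a = 0 then 1 else -1

theorem chi_add (a b : ZMod 2) : chi (a + b) = chi a * chi b := by
  have h : ∀ a b : ZMod 2, (a = 0 ∧ b = 0 ∧ a + b = 0) ∨ (a = 0 ∧ b ≠ 0 ∧ a + b ≠ 0) ∨
    (a ≠ 0 ∧ b = 0 ∧ a + b ≠ 0) ∨ (a ≠ 0 ∧ b ≠ 0 ∧ a + b = 0) := by decide
  rcases h a b with ⟨h1, h2, h3⟩ | ⟨h1, h2, h3⟩ | ⟨h1, h2, h3⟩ | ⟨h1, h2, h3⟩ <;>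
    simp [chi, h1, h2, h3]

theorem chi_sq (a : ZMod 2) : chi a * chi a = 1 := by
  unfold chi; split_ifs <;> norm_num

variable {k n : ℕ}

/-- the inner product over the field with two elements -/
def dot (g y : Fin k → ZMod 2) : ZMod 2 := ∑ j, g j * y j

theorem dot_add_left (g h y : Fin k → ZMod 2) : dot (g + h) y = dot g y + dot h y := by
  simp only [dot, Pi.add_apply, add_mul, Finset.sum_add_distrib]

theorem dot_add_right (g y z : Fin k → ZMod 2) : dot g (y + z) = dot g y + dot g z := by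
  simp only [dot, Pi.add_apply, mul_add, Finset.sum_add_distrib]

theorem sum_chi {g : Fin k → ZMod 2} (hg : g ≠ 0) : ∑ y : Fin k → ZMod 2, chi (dot g y) = 0 := by
  obtain ⟨j, hj⟩ : ∃ j, g j ≠ 0 := by
    by_contra h
    push Not at h
    exact hg (funext h)
  have hj1 : g j = 1 := by
    have : ∀ a : ZMod 2, a ≠ 0 → a = 1 := by decide
    exact this _ hj
  have h1 : dot g (Pi.single j 1) = 1 := by
    simp only [dot, Pi.single_apply, mul_ite, mul_one, mul_zero]
    rw [Finset.sum_ite_eq' Finset.univ j g, if_pos (Finset.mem_univ j), hj1]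
  generalize (Pi.single j 1 : Fin k → ZMod 2) = z at h1
  have h2 : ∑ y : Fin k → ZMod 2, chi (dot g (y + z)) = ∑ y : Fin k → ZMod 2, chi (dot g y) :=
    Fintype.sum_equiv (Equiv.addRight z) _ _ (fun y => by rw [Equiv.coe_addRight])
  have h4 : chi 1 = -1 := by
    unfold chi
    rw [if_neg (by decide)]
  have h3 : ∑ y : Fin k → ZMod 2, chi (dot g (y + z)) =
      -∑ y : Fin k → ZMod 2, chi (dot g y) := by
    rw [← Finset.sum_neg_distrib]
    refine Finset.sum_congr rfl (fun y _ => ?_)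
    rw [dot_add_right, chi_add, h1, h4, mul_neg_one]
  linarith

/-- signed sum of characters -/
noncomputable def F (g : Fin n → Fin k → ZMod 2) (c : Fin n → ℝ) (y : Fin k → ZMod 2) : ℝ :=
  ∑ i, c i * chi (dot (g i) y)

theorem sum_F {g : Fin n → Fin k → ZMod 2} (hg : ∀ i, g i ≠ 0) (c : Fin n → ℝ) :
    ∑ y, F g c y = 0 := by
  simp only [F]
  rw [Finset.sum_comm]
  refine Finset.sum_eq_zero (fun i _ => ?_)
  rw [← Finset.mul_sum, sum_chi (hg i), mul_zero]

theorem sum_F_sq {g : Fin n → Fin k → ZMod 2} (hinj : Function.Injective g) (c : Fin n → ℝ) :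
    ∑ y, F g c y ^ 2 = 2 ^ k * ∑ i, c i ^ 2 := by
  have h1 : ∀ y, F g c y ^ 2 = ∑ i, ∑ j, c i * c j * chi (dot (g i + g j) y) := by
    intro y
    rw [F, sq, Finset.sum_mul_sum]
    refine Finset.sum_congr rfl (fun i _ => Finset.sum_congr rfl (fun j _ => ?_))
    rw [dot_add_left, chi_add]
    ring
  simp only [h1]
  rw [Finset.sum_comm, Finset.mul_sum]
  refine Finset.sum_congr rfl (fun i _ => ?_)
  rw [Finset.sum_comm, Finset.sum_eq_single i]
  · have h2 : g i + g i = 0 := by
      funext j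
      have : ∀ a : ZMod 2, a + a = 0 := by decide
      exact this _
    rw [h2]
    have h3 : ∀ y : Fin k → ZMod 2, chi (dot 0 y) = 1 := by
      intro y
      simp [dot, chi]
    simp only [h3]
    rw [Finset.sum_const, Finset.card_univ, Fintype.card_fun, ZMod.card, Fintype.card_fin,
      nsmul_eq_mul]
    push_cast
    ring
  · intro j _ hj
    rw [← Finset.mul_sum, sum_chi, mul_zero]
    intro h
    apply hj
    apply hinj
    funext l
    have h4 : g i l + g j l = 0 := congrFun h l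
    have : ∀ a b : ZMod 2, a + b = 0 → b = a := by decide
    exact this _ _ h4
  · intro h; exact absurd (Finset.mem_univ i) h

/-- the signed sum varies by at least `2` -/
theorem exists_gap {g : Fin n → Fin k → ZMod 2} (hg : ∀ i, g i ≠ 0) (hinj : Function.Injective g)
    {c : Fin n → ℝ} (hc : ∑ i, c i ^ 2 = 1) : ∃ y z, 2 ≤ F g c y - F g c z := by
  obtain ⟨y, _, hy⟩ := Finset.exists_max_image (Finset.univ : Finset (Fin k → ZMod 2)) (F g c)
    ⟨0, Finset.mem_univ 0⟩
  obtain ⟨z, _, hz⟩ := Finset.exists_min_image (Finset.univ : Finset (Fin k → ZMod 2)) (F g c)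
    ⟨0, Finset.mem_univ 0⟩
  refine ⟨y, z, ?_⟩
  have h1 : 0 ≤ ∑ x : Fin k → ZMod 2, (F g c y - F g c x) * (F g c x - F g c z) :=
    Finset.sum_nonneg (fun x hx => mul_nonneg (sub_nonneg.mpr (hy x hx)) (sub_nonneg.mpr (hz x hx)))
  have h2 : ∑ x : Fin k → ZMod 2, (F g c y - F g c x) * (F g c x - F g c z) =
      (F g c y + F g c z) * ∑ x, F g c x - ∑ x, F g c x ^ 2 -
      ∑ _x : Fin k → ZMod 2, F g c y * F g c z := by
    rw [Finset.mul_sum, ← Finset.sum_sub_distrib, ← Finset.sum_sub_distrib]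
    refine Finset.sum_congr rfl (fun x _ => ?_)
    ring
  rw [h2, sum_F hg, sum_F_sq hinj, hc, Finset.sum_const, Finset.card_univ, Fintype.card_fun,
    ZMod.card, Fintype.card_fin, nsmul_eq_mul] at h1
  have h3 : (0 : ℝ) < 2 ^ k := by positivity
  have h4 : 1 ≤ -(F g c y * F g c z) := by
    push_cast at h1
    by_contra hcon
    push Not at hcon
    nlinarith
  have h5 : F g c z ≤ F g c y := hz y (Finset.mem_univ y)
  by_contra hcon
  push Not at hcon
  nlinarith [sq_nonneg (F g c y + F g c z)]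

end Pool.Agent.Helper114.Width
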