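import Mathlib

/-!
# Width of subsets of the binary cube, packings of subsets of large width
-/

set_option autoImplicit false

namespace Pool.Agent.Helper114.Width

/-- `n`-dimensional Euclidean space -/
abbrev E (n : ℕ) : Type := EuclideanSpace ℝ (Fin n)

/-- the vertices of the unit cube -/
def cube (n : ℕ) : Set (E n) := {x | ∀ i, x i = 0 ∨ x i = 1}

/-- the Euclidean width of the convex hull of `A`: the infimum over all unit vectors `u` of the
difference of the supremum and the infimum of `⟨u, x⟩` over the convex hull -/
noncomputable def width {n : ℕ} (A : Set (E n)) : ℝ :=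
  ⨅ u : Metric.sphere (0 : E n) 1, ((⨆ x : convexHull ℝ A, inner ℝ (u : E n) (x : E n)) -
    ⨅ x : convexHull ℝ A, inner ℝ (u : E n) (x : E n))

/-- a packing of the cube by nonempty sets of width at least `t` -/
def IsPacking {n : ℕ} (t : ℝ) (P : Finset (Set (E n))) : Prop :=
  (∀ A ∈ P, A ⊆ cube n ∧ A.Nonempty ∧ t ≤ width A) ∧ ∀ A ∈ P, ∀ B ∈ P, A ≠ B → Disjoint A B

/-- the largest number of members of a packing by sets of width at least `t` -/
noncomputable def packNum (n : ℕ) (t : ℝ) : ℕ :=
  sSup {m : ℕ | ∃ P : Finset (Set (E n)), IsPacking t P ∧ P.card = m}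

end Pool.Agent.Helper114.Width
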