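import Pool.Agent.Helper114_Width.Defs
import Pool.Agent.Helper114_Width.Char

/-!
# Bounds for packings of the binary cube by sets of large width
-/

set_option autoImplicit false

namespace Pool.Agent.Helper114.Width

variable {n : ℕ}

/-- the vertex of the cube given by a vector over the field with two elements -/
noncomputable def iota (v : Fin n → ZMod 2) : E n :=
  WithLp.toLp 2 (fun i => ((v i).val : ℝ))

theorem iota_apply (v : Fin n → ZMod 2) (i : Fin n) : iota v i = ((v i).val : ℝ) := rfl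

theorem val_eq (a : ZMod 2) : (a.val : ℝ) = (1 - chi a) / 2 := by
  have h : ∀ a : ZMod 2, (a = 0 ∧ a.val = 0) ∨ (a ≠ 0 ∧ a.val = 1) := by decide
  rcases h a with ⟨h1, h2⟩ | ⟨h1, h2⟩
  · rw [h2, chi, if_pos h1]; norm_num
  · rw [h2, chi, if_neg h1]; norm_num

theorem iota_injective : Function.Injective (iota (n := n)) := by
  intro v w h
  funext i
  have h1 : iota v i = iota w i := by rw [h]
  rw [iota_apply, iota_apply] at h1
  exact ZMod.val_injective 2 (Nat.cast_injective h1)

theorem range_iota : Set.range (iota (n := n)) = cube n := by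
  ext x
  constructor
  · rintro ⟨v, rfl⟩ i
    rw [iota_apply]
    have h : ∀ a : ZMod 2, a.val = 0 ∨ a.val = 1 := by decide
    rcases h (v i) with h1 | h1
    · left; rw [h1]; norm_num
    · right; rw [h1]; norm_num
  · intro hx
    classical
    refine ⟨fun i => if x i = 0 then 0 else 1, ?_⟩
    ext i
    rw [iota_apply]
    rcases hx i with h | h
    · rw [if_pos h, h]; norm_num
    · rw [if_neg (by rw [h]; norm_num), h]
      have : (1 : ZMod 2).val = 1 := by decide
      rw [this]; norm_num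

theorem finite_cube : (cube n).Finite := by
  rw [← range_iota]; exact Set.finite_range _

theorem ncard_cube : (cube n).ncard = 2 ^ n := by
  rw [← range_iota, ← Set.image_univ, Set.ncard_image_of_injective _ iota_injective,
    Set.ncard_univ, Nat.card_eq_fintype_card, Fintype.card_fun, ZMod.card, Fintype.card_fin]

theorem bdd {A : Set (E n)} (hA : A ⊆ cube n) (u : E n) : ∃ R : ℝ, ∀ x ∈ convexHull ℝ A,
    |inner ℝ u x| ≤ R := by
  have h1 : Bornology.IsBounded (convexHull ℝ A) :=
    isBounded_convexHull.mpr (finite_cube.subset hA).isBounded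
  obtain ⟨R, hR⟩ := h1.exists_norm_le
  refine ⟨‖u‖ * R, fun x hx => (abs_real_inner_le_norm u x).trans ?_⟩
  exact mul_le_mul_of_nonneg_left (hR x hx) (norm_nonneg u)

theorem bddAbove {A : Set (E n)} (hA : A ⊆ cube n) (u : E n) :
    BddAbove (Set.range (fun x : convexHull ℝ A => inner ℝ u (x : E n))) := by
  obtain ⟨R, hR⟩ := bdd hA u
  refine ⟨R, ?_⟩
  rintro _ ⟨x, rfl⟩
  exact (le_abs_self _).trans (hR x x.2)

theorem bddBelow {A : Set (E n)} (hA : A ⊆ cube n) (u : E n) :
    BddBelow (Set.range (fun x : convexHull ℝ A => inner ℝ u (x : E n))) := by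
  obtain ⟨R, hR⟩ := bdd hA u
  refine ⟨-R, ?_⟩
  rintro _ ⟨x, rfl⟩
  exact (abs_le.mp (hR x x.2)).1

/-- a criterion for large width -/
theorem le_width [Nonempty (Metric.sphere (0 : E n) 1)] {A : Set (E n)} (hA : A ⊆ cube n) {t : ℝ}
    (h : ∀ u : E n, ‖u‖ = 1 → ∃ x ∈ A, ∃ y ∈ A, t ≤ inner ℝ u x - inner ℝ u y) : t ≤ width A := by
  refine le_ciInf (fun u => ?_)
  obtain ⟨x, hx, y, hy, hxy⟩ := h u (by simp)
  have h1 := le_ciSup (bddAbove hA (u : E n)) ⟨x, subset_convexHull ℝ A hx⟩
  have h2 := ciInf_le (bddBelow hA (u : E n)) ⟨y, subset_convexHull ℝ A hy⟩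
  simp only at h1 h2
  linarith

/-- sets with at most `n` points have width at most zero -/
theorem card_of_width {A : Set (E n)} (hA : A ⊆ cube n) (hne : A.Nonempty) {t : ℝ} (ht : 0 < t)
    (hw : t ≤ width A) : n + 1 ≤ A.ncard := by
  classical
  by_contra hcard
  push Not at hcard
  obtain ⟨a, ha⟩ := hne
  have hfin : A.Finite := finite_cube.subset hA
  -- a hyperplane direction
  obtain ⟨s, hs⟩ : ∃ s : Finset (E n), (s : Set (E n)) = A \ {a} :=
    ⟨(hfin.subset Set.sdiff_subset).toFinset, by rw [Set.Finite.coe_toFinset]⟩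
  have hscard : s.card + 1 ≤ n := by
    have h1 : s.card = (A \ {a}).ncard := by rw [← hs, Set.ncard_coe_finset]
    have h2 := Set.ncard_sdiff_singleton_add_one ha hfin
    omega
  let S : Submodule ℝ (E n) := Submodule.span ℝ ((s.image (fun x => x - a) : Finset (E n)) : Set (E n))
  have hS : Module.finrank ℝ S < n := by
    have h1 : Module.finrank ℝ S ≤ (s.image (fun x => x - a)).card := finrank_span_finset_le_card _
    have h2 := Finset.card_image_le (s := s) (f := fun x => x - a)
    omega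
  have hSo : Sᗮ ≠ ⊥ := by
    intro h
    have h1 := S.finrank_add_finrank_orthogonal
    rw [h, finrank_bot, finrank_euclideanSpace, Fintype.card_fin] at h1
    omega
  obtain ⟨w, hwS, hw0⟩ := Submodule.exists_mem_ne_zero_of_ne_bot hSo
  have hwn : ‖w‖ ≠ 0 := norm_ne_zero_iff.mpr hw0
  set u : E n := ‖w‖⁻¹ • w with hu
  have hun : ‖u‖ = 1 := by
    rw [hu, norm_smul, norm_inv, norm_norm, inv_mul_cancel₀ hwn]
  have huS : u ∈ Sᗮ := Submodule.smul_mem _ _ hwS
  have hconst : ∀ x ∈ A, inner ℝ u x = inner ℝ u a := by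
    intro x hx
    by_cases hxa : x = a
    · rw [hxa]
    · have h1 : x - a ∈ S := by
        apply Submodule.subset_span
        rw [Finset.mem_coe, Finset.mem_image]
        refine ⟨x, ?_, rfl⟩
        have : x ∈ (s : Set (E n)) := by rw [hs]; exact ⟨hx, hxa⟩
        exact this
      have h2 := (Submodule.mem_orthogonal' S u).mp huS (x - a) h1
      rw [inner_sub_right] at h2
      linarith
  have hhull : ∀ x ∈ convexHull ℝ A, inner ℝ u x = inner ℝ u a := by
    intro x hx
    have hconv : Convex ℝ {x : E n | inner ℝ u x = inner ℝ u a} := by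
      intro x hx y hy p q _ _ hpq
      simp only [Set.mem_ofPred_eq] at hx hy ⊢
      rw [inner_add_right, inner_smul_right, inner_smul_right, hx, hy, ← add_mul, hpq, one_mul]
    exact convexHull_min (fun x hx => hconst x hx) hconv hx
  have hzero : (⨆ x : convexHull ℝ A, inner ℝ u (x : E n)) -
      ⨅ x : convexHull ℝ A, inner ℝ u (x : E n) = 0 := by
    have : Nonempty (convexHull ℝ A) := ⟨⟨a, subset_convexHull ℝ A ha⟩⟩
    have h1 : (fun x : convexHull ℝ A => inner ℝ u (x : E n)) = fun _ => inner ℝ u a :=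
      funext (fun x => hhull x x.2)
    rw [h1, ciSup_const, ciInf_const, sub_self]
  have hle : width A ≤ 0 := by
    have hb : BddBelow (Set.range (fun u : Metric.sphere (0 : E n) 1 =>
        ((⨆ x : convexHull ℝ A, inner ℝ (u : E n) (x : E n)) -
        ⨅ x : convexHull ℝ A, inner ℝ (u : E n) (x : E n)))) := by
      refine ⟨0, ?_⟩
      rintro _ ⟨v, rfl⟩
      have h1 := le_ciSup (bddAbove hA (v : E n)) ⟨a, subset_convexHull ℝ A ha⟩
      have h2 := ciInf_le (bddBelow hA (v : E n)) ⟨a, subset_convexHull ℝ A ha⟩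
      simp only at h1 h2 ⊢
      linarith
    have h3 := ciInf_le hb ⟨u, by simpa using hun⟩
    rw [width]
    simp only at h3
    rw [hzero] at h3
    exact h3
  linarith

/-- the upper bound -/
theorem card_packing {t : ℝ} (ht : 0 < t) {P : Finset (Set (E n))} (hP : IsPacking t P) :
    P.card * (n + 1) ≤ 2 ^ n := by
  classical
  let g : Set (E n) → Finset (E n) := fun A => finite_cube.toFinset.filter (fun x => x ∈ A)
  have hg : ∀ A ∈ P, ((g A : Finset (E n)) : Set (E n)) = A := by
    intro A hA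
    ext x
    simp only [g, Finset.coe_filter, Set.Finite.mem_toFinset, Set.mem_ofPred_eq]
    exact ⟨fun h => h.2, fun h => ⟨(hP.1 A hA).1 h, h⟩⟩
  have h1 : (P.biUnion g).card = ∑ A ∈ P, (g A).card := by
    apply Finset.card_biUnion
    intro A hA B hB hAB
    have h2 := hP.2 A hA B hB hAB
    change Disjoint (g A) (g B)
    rw [← Finset.disjoint_coe, hg A hA, hg B hB]
    exact h2
  have h2 : (P.biUnion g).card ≤ 2 ^ n := by
    rw [← ncard_cube (n := n), Set.ncard_eq_toFinset_card _ finite_cube]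
    apply Finset.card_le_card
    intro x hx
    rw [Finset.mem_biUnion] at hx
    obtain ⟨A, _, hx⟩ := hx
    exact (Finset.mem_filter.mp hx).1
  have h3 : ∑ _A ∈ P, (n + 1) ≤ ∑ A ∈ P, (g A).card := by
    refine Finset.sum_le_sum (fun A hA => ?_)
    have h4 := card_of_width (hP.1 A hA).1 (hP.1 A hA).2.1 ht (hP.1 A hA).2.2
    rwa [← hg A hA, Set.ncard_coe_finset] at h4
  rw [Finset.sum_const, smul_eq_mul] at h3
  omega

theorem packNum_bddAbove {t : ℝ} (ht : 0 < t) :
    BddAbove {m : ℕ | ∃ P : Finset (Set (E n)), IsPacking t P ∧ P.card = m} := by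
  refine ⟨2 ^ n, ?_⟩
  rintro _ ⟨P, hP, rfl⟩
  have := card_packing ht hP
  nlinarith

theorem packNum_le {t : ℝ} (ht : 0 < t) : packNum n t * (n + 1) ≤ 2 ^ n := by
  obtain ⟨P, hP, hc⟩ := Nat.sSup_mem (s := {m : ℕ | ∃ P : Finset (Set (E n)), IsPacking t P ∧ P.card = m})
    ⟨0, ∅, ⟨by simp, by simp⟩, rfl⟩ (packNum_bddAbove ht)
  rw [packNum, ← hc]
  exact card_packing ht hP

/-! ### The lower bound: cosets of a linear code -/

variable {k : ℕ}

/-- the code with columns `g i` -/
def code (g : Fin n → Fin k → ZMod 2) : (Fin k → ZMod 2) →+ (Fin n → ZMod 2) where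
  toFun y i := dot (g i) y
  map_zero' := by funext i; simp [dot]
  map_add' y z := by funext i; exact dot_add_right _ _ _

/-- the subset of the cube given by a coset of the code -/
def blk (g : Fin n → Fin k → ZMod 2) (q : (Fin n → ZMod 2) ⧸ (code g).range) : Set (E n) :=
  iota '' {v | (QuotientAddGroup.mk v : (Fin n → ZMod 2) ⧸ (code g).range) = q}

theorem blk_subset (g : Fin n → Fin k → ZMod 2) (q : (Fin n → ZMod 2) ⧸ (code g).range) :
    blk g q ⊆ cube n := by
  rw [← range_iota]
  rintro _ ⟨v, _, rfl⟩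
  exact ⟨v, rfl⟩

theorem inner_iota (u : E n) (v : Fin n → ZMod 2) :
    inner ℝ u (iota v) = (∑ i, u i) / 2 - (∑ i, u i * chi (v i)) / 2 := by
  rw [PiLp.inner_apply, Finset.sum_div, Finset.sum_div, ← Finset.sum_sub_distrib]
  refine Finset.sum_congr rfl (fun i _ => ?_)
  rw [iota_apply, val_eq]
  simp only [RCLike.inner_apply, conj_trivial]
  ring

theorem width_blk (hn : 1 ≤ n) {g : Fin n → Fin k → ZMod 2} (hg : ∀ i, g i ≠ 0)
    (hinj : Function.Injective g) (q : (Fin n → ZMod 2) ⧸ (code g).range) :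
    1 ≤ width (blk g q) := by
  have : Nonempty (Metric.sphere (0 : E n) 1) := by
    refine ⟨⟨EuclideanSpace.single ⟨0, hn⟩ 1, ?_⟩⟩
    simp
  refine le_width (blk_subset g q) (fun u hu => ?_)
  obtain ⟨v, rfl⟩ := QuotientAddGroup.mk_surjective q
  have hc : ∑ i, (u i * chi (v i)) ^ 2 = 1 := by
    have h1 : ∑ i, (u i) ^ 2 = 1 := by
      have h2 := EuclideanSpace.norm_sq_eq u
      rw [hu] at h2
      rw [← one_pow 2, h2]
      refine Finset.sum_congr rfl (fun i _ => ?_)
      rw [Real.norm_eq_abs, sq_abs]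
    rw [← h1]
    refine Finset.sum_congr rfl (fun i _ => ?_)
    rw [mul_pow, sq (chi (v i)), chi_sq, mul_one]
  obtain ⟨y, z, hyz⟩ := exists_gap hg hinj hc
  have hmem : ∀ y, iota (v + code g y) ∈ blk g (QuotientAddGroup.mk v) := by
    intro y
    refine ⟨v + code g y, ?_, rfl⟩
    change (QuotientAddGroup.mk (v + code g y) : (Fin n → ZMod 2) ⧸ (code g).range) =
      QuotientAddGroup.mk v
    rw [QuotientAddGroup.eq]
    exact ⟨-y, by rw [map_neg]; abel⟩
  refine ⟨_, hmem z, _, hmem y, ?_⟩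
  have hF : ∀ y, ∑ i, u i * chi ((v + code g y) i) = F g (fun i => u i * chi (v i)) y := by
    intro y
    rw [F]
    refine Finset.sum_congr rfl (fun i _ => ?_)
    rw [Pi.add_apply, chi_add, mul_assoc]
    rfl
  rw [inner_iota, inner_iota, hF, hF]
  linarith

theorem lower {t : ℝ} (ht : 0 < t) (ht1 : t ≤ 1) (hn : 1 ≤ n) (hk : n < 2 ^ k) :
    2 ^ n ≤ packNum n t * 2 ^ k := by
  classical
  obtain ⟨g, hg, hinj⟩ : ∃ g : Fin n → Fin k → ZMod 2, (∀ i, g i ≠ 0) ∧ Function.Injective g := by
    have h1 : Fintype.card (Fin n) ≤ Fintype.card {y : Fin k → ZMod 2 // y ≠ 0} := by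
      rw [Fintype.card_subtype_compl, Fintype.card_fin, Fintype.card_fun, ZMod.card,
        Fintype.card_fin, Fintype.card_subtype_eq]
      omega
    obtain ⟨e⟩ := Function.Embedding.nonempty_of_card_le h1
    exact ⟨fun i => (e i).1, fun i => (e i).2, fun i j h => e.injective (Subtype.ext h)⟩
  have hcard : 2 ^ n = Nat.card ((Fin n → ZMod 2) ⧸ (code g).range) * Nat.card (code g).range := by
    rw [← AddSubgroup.card_eq_card_quotient_mul_card_addSubgroup, Nat.card_eq_fintype_card,
      Fintype.card_fun, ZMod.card, Fintype.card_fin]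
  have hC : Nat.card (code g).range ≤ 2 ^ k := by
    have h1 : Nat.card (code g).range ≤ Nat.card (Fin k → ZMod 2) :=
      Nat.card_le_card_of_surjective _ (code g).rangeRestrict_surjective
    rwa [Nat.card_eq_fintype_card (α := Fin k → ZMod 2), Fintype.card_fun, ZMod.card,
      Fintype.card_fin] at h1
  have : Fintype ((Fin n → ZMod 2) ⧸ (code g).range) := Fintype.ofFinite _
  have hblk : Function.Injective (blk g) := by
    intro q q' h
    obtain ⟨v, rfl⟩ := QuotientAddGroup.mk_surjective q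
    have h1 : iota v ∈ blk g (QuotientAddGroup.mk v) := ⟨v, rfl, rfl⟩
    rw [h] at h1
    obtain ⟨w, hw, hvw⟩ := h1
    rw [iota_injective hvw] at hw
    exact hw
  have hle : Nat.card ((Fin n → ZMod 2) ⧸ (code g).range) ≤ packNum n t := by
    refine le_csSup (packNum_bddAbove ht) ⟨Finset.univ.image (blk g), ⟨?_, ?_⟩, ?_⟩
    · intro A hA
      rw [Finset.mem_image] at hA
      obtain ⟨q, _, rfl⟩ := hA
      refine ⟨blk_subset g q, ?_, ht1.trans (width_blk hn hg hinj q)⟩
      obtain ⟨v, rfl⟩ := QuotientAddGroup.mk_surjective q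
      exact ⟨iota v, v, rfl, rfl⟩
    · intro A hA B hB hAB
      rw [Finset.mem_image] at hA hB
      obtain ⟨q, _, rfl⟩ := hA
      obtain ⟨q', _, rfl⟩ := hB
      rw [Set.disjoint_left]
      rintro _ ⟨v, hv, rfl⟩ ⟨w, hw, hvw⟩
      rw [iota_injective hvw] at hw
      exact hAB (by rw [← hv, ← hw])
    · rw [Finset.card_image_of_injective _ hblk, Finset.card_univ, Nat.card_eq_fintype_card]
  calc 2 ^ n = _ := hcard
    _ ≤ packNum n t * 2 ^ k := Nat.mul_le_mul hle hC

/-- order of magnitude -/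
theorem order {t : ℝ} (ht : 0 < t) (ht1 : t ≤ 1) (hn : 1 ≤ n) :
    2 ^ n ≤ packNum n t * (2 * n) := by
  have h1 : n < 2 ^ (Nat.log 2 n + 1) := Nat.lt_pow_succ_log_self (by norm_num) n
  have h2 := lower ht ht1 hn h1
  have h3 : 2 ^ (Nat.log 2 n) ≤ n := Nat.pow_log_le_self 2 (by omega)
  calc 2 ^ n ≤ packNum n t * 2 ^ (Nat.log 2 n + 1) := h2
    _ ≤ packNum n t * (2 * n) := Nat.mul_le_mul_left _ (by rw [pow_succ]; omega)

end Pool.Agent.Helper114.Width
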